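import Pool.Agent.K3h44.RQ.Stm

/-!
# Decomposition groups, residue degrees and transitivity in the `m`-th cyclotomic field (S_STABM)

Port of `Pool/Agent/Y688/WQ/STAB.lean` (prime `p`) to all `m`.
-/

set_option autoImplicit false

namespace Pool.Agent.K3h42.RQ
open NumberField IsDedekindDomain Pool.Agent.K3h44.RQ Polynomial

section

variable {m : ℕ} [NeZero m] {C : Type} [Field C] [NumberField C]

lemma rs_coe (c : CycM m C) (t : (ZMod m)ˣ) (x : 𝓞 C) : ((rsM c t x : 𝓞 C) : C) = c.σ t x := by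
  rfl

lemma rs_mul (c : CycM m C) (s t : (ZMod m)ˣ) (x : 𝓞 C) : rsM c (s * t) x = rsM c s (rsM c t x) := by
  apply RingOfIntegers.ext
  rw [rs_coe, rs_coe, rs_coe, map_mul]
  rfl

lemma rs_one (c : CycM m C) (x : 𝓞 C) : rsM c 1 x = x := by
  apply RingOfIntegers.ext
  rw [rs_coe, map_one]
  rfl

lemma mem_act (c : CycM m C) (t : (ZMod m)ˣ) (P : HeightOneSpectrum (𝓞 C)) (x : 𝓞 C) :
    x ∈ (actM c t P).asIdeal ↔ rsM c t x ∈ P.asIdeal := Iff.rfl

/-- the root of unity as an integer -/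
noncomputable def zz (c : CycM m C) : 𝓞 C :=
  ⟨c.z, c.prim.isIntegral (NeZero.pos m)⟩

lemma zz_coe (c : CycM m C) : ((zz c : 𝓞 C) : C) = c.z := rfl

lemma zz_prim (c : CycM m C) : IsPrimitiveRoot (zz c) m :=
  IsPrimitiveRoot.of_map_of_injective (f := algebraMap (𝓞 C) C) c.prim
    (RingOfIntegers.coe_injective)

lemma rs_zz (c : CycM m C) (t : (ZMod m)ˣ) : rsM c t (zz c) = zz c ^ (t : ZMod m).val := by
  apply RingOfIntegers.ext
  rw [rs_coe, zz_coe, c.σ_z]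
  exact (map_pow (algebraMap (𝓞 C) C) (zz c) _).symm

lemma gen_zz (c : CycM m C) (x : 𝓞 C) : ∃ f : Polynomial ℤ,
    x = eval₂ (Int.castRingHom (𝓞 C)) (zz c) f := by
  obtain ⟨f, hf⟩ := c.gen x (RingOfIntegers.isIntegral_coe x)
  refine ⟨f, ?_⟩
  apply RingOfIntegers.ext
  rw [hf]
  have h1 := hom_eval₂ f (Int.castRingHom (𝓞 C)) (algebraMap (𝓞 C) C) (zz c)
  rw [aeval_def]
  exact h1.symm

lemma pow_modEq {E : Type} [Field E] {w : E} {p : ℕ} (hp : p ≠ 0) (hw : IsPrimitiveRoot w p)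
    {a b : ℕ} (h : w ^ a = w ^ b) : a ≡ b [MOD p] := by
  obtain ⟨u, rfl⟩ := hw.isUnit hp
  have h1 : u ^ a = u ^ b := Units.ext (by simpa using h)
  have h2 := pow_eq_pow_iff_modEq.1 h1
  rwa [← orderOf_units, ← hw.eq_orderOf] at h2

lemma hom_ev {A B : Type} [CommRing A] [CommRing B] (φ : A →+* B) (x : A) (f : Polynomial ℤ) :
    φ (eval₂ (Int.castRingHom A) x f) = eval₂ (Int.castRingHom B) (φ x) f := by
  rw [hom_eval₂]
  congr 1
  exact Subsingleton.elim _ _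

/-- Frobenius on values of integral polynomials -/
lemma frob_ev {E : Type} [Field E] {q : ℕ} [Fact q.Prime] [CharP E q] (w : E)
    (f : Polynomial ℤ) : (eval₂ (Int.castRingHom E) w f) ^ q =
      eval₂ (Int.castRingHom E) (w ^ q) f := hom_ev (frobenius E q) w f

variable (c : CycM m C) (P : HeightOneSpectrum (𝓞 C)) (q : ℕ) [Fact q.Prime]
  (g : (ZMod m)ˣ) (hg : (g : ZMod m) = q) {E : Type} [Field E] [Finite E] [CharP E q]
  (μ : 𝓞 C →+* E) (hμ : ∀ x, μ x = 0 ↔ x ∈ P.asIdeal) (hs : Function.Surjective μ)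

include hg

omit [Fact q.Prime] in
lemma not_dvd : q.Coprime m := by
  have h := ZMod.isUnit_iff_coprime q m
  exact h.1 ⟨g, hg⟩

omit [Finite E] in
/-- the image of the root of unity has order `m` -/
lemma w_prim : IsPrimitiveRoot (μ (zz c)) m := by
  have hq : q.Prime := Fact.out
  have hne : NeZero ((m : ℕ) : E) := by
    refine ⟨fun h => ?_⟩
    rw [CharP.cast_eq_zero_iff E q] at h
    have h1 := not_dvd (m := m) q g hg
    exact hq.one_lt.ne' (Nat.Coprime.eq_one_of_dvd h1 h)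
  rw [← isRoot_cyclotomic_iff]
  have h1 : IsRoot (cyclotomic m (𝓞 C)) (zz c) := (zz_prim c).isRoot_cyclotomic (NeZero.pos m)
  have h2 := h1.map (f := μ)
  rwa [map_cyclotomic] at h2

omit [Finite E] in
/-- the decomposition automorphism is the Frobenius -/
lemma mk_rs (x : 𝓞 C) : μ (rsM c g x) = (μ x) ^ q := by
  have hw := w_prim c q g hg μ
  obtain ⟨f, rfl⟩ := gen_zz c x
  have h1 := hom_ev (rsM c g : 𝓞 C →+* 𝓞 C) (zz c) f
  have h1' : rsM c g (eval₂ (Int.castRingHom (𝓞 C)) (zz c) f) =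
    eval₂ (Int.castRingHom (𝓞 C)) (rsM c g (zz c)) f := h1
  rw [h1', hom_ev, hom_ev, frob_ev, rs_zz, map_pow]
  congr 1
  have h2 : (g : ZMod m).val = q % m := by rw [hg, ZMod.val_natCast]
  rw [h2, ← pow_mod_orderOf, ← pow_mod_orderOf (μ (zz c)) q, ← hw.eq_orderOf, Nat.mod_mod]

lemma mk_rs_pow (s : ℕ) (x : 𝓞 C) : μ (rsM c (g ^ s) x) = (μ x) ^ (q ^ s) := by
  induction s with
  | zero => rw [pow_zero, rs_one, pow_zero, pow_one]
  | succ s ih => rw [pow_succ', rs_mul, mk_rs c q g hg μ, ih, ← pow_mul, pow_succ]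

include hμ

lemma stab1 (t : (ZMod m)ˣ) (ht : t ∈ Subgroup.zpowers g) : actM c t P = P := by
  obtain ⟨s, rfl⟩ := (Submonoid.mem_powers_iff _ _).1 (mem_powers_iff_mem_zpowers.2 ht)
  apply HeightOneSpectrum.ext
  ext x
  rw [mem_act, ← hμ, mk_rs_pow c q g hg μ, pow_eq_zero_iff (pow_ne_zero _
    (Fact.out : q.Prime).ne_zero), hμ]

include hs

lemma stab2 (t : (ZMod m)ˣ) (ht : actM c t P = P) : t ∈ Subgroup.zpowers g := by
  have hw := w_prim c q g hg μ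
  have hle : RingHom.ker μ ≤ RingHom.ker (μ.comp (rsM c t : 𝓞 C →+* 𝓞 C)) := by
    intro x hx
    rw [RingHom.mem_ker, hμ] at hx
    rw [RingHom.mem_ker]
    show μ (rsM c t x) = 0
    rw [hμ, ← mem_act, ht]
    exact hx
  let τ0 : E →+* E := RingHom.liftOfSurjective μ hs ⟨μ.comp (rsM c t : 𝓞 C →+* 𝓞 C), hle⟩
  have hτ : ∀ x, τ0 (μ x) = μ (rsM c t x) := fun x =>
    RingHom.liftOfRightInverse_comp_apply μ _ (Function.rightInverse_surjInv hs)
      ⟨μ.comp (rsM c t : 𝓞 C →+* 𝓞 C), hle⟩ x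
  let _ : Algebra (ZMod q) E := ZMod.algebra _ q
  let τ : E →ₐ[ZMod q] E :=
    { τ0 with
      commutes' := fun r => RingHom.congr_fun (Subsingleton.elim
        (τ0.comp (algebraMap (ZMod q) E)) (algebraMap (ZMod q) E)) r }
  obtain ⟨n, hn⟩ := (FiniteField.bijective_frobeniusAlgHom_pow (ZMod q) E).2 τ
  have h1 : τ (μ (zz c)) = (μ (zz c)) ^ (q ^ (n : ℕ)) := by
    rw [← hn]
    show ((FiniteField.frobeniusAlgHom (ZMod q) E) ^ (n : ℕ)) (μ (zz c)) = _
    rw [AlgHom.coe_pow, FiniteField.coe_frobeniusAlgHom, pow_iterate, ZMod.card]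
  have h2 : τ (μ (zz c)) = (μ (zz c)) ^ (t : ZMod m).val := by
    show τ0 (μ (zz c)) = _
    rw [hτ, rs_zz, map_pow]
  rw [h2] at h1
  have h3 := pow_modEq (NeZero.ne m) hw h1
  have h4 : (t : ZMod m) = ((q ^ (n : ℕ) : ℕ) : ZMod m) := by
    rw [← ZMod.natCast_zmod_val (t : ZMod m)]
    exact (ZMod.natCast_eq_natCast_iff _ _ _).2 h3
  refine Subgroup.mem_zpowers_iff.2 ⟨(n : ℕ), ?_⟩
  apply Units.ext
  rw [zpow_natCast, Units.val_pow_eq_pow_val, hg, h4]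
  push_cast
  rfl

omit hμ in
include c in
lemma card1 : Nat.card E = q ^ orderOf g := by
  have hw := w_prim c q g hg μ
  have : Fintype E := Fintype.ofFinite _
  obtain ⟨F, hq', hF⟩ := FiniteField.card E q
  rw [Nat.card_eq_fintype_card, hF]
  have hf0 : 0 < orderOf g := orderOf_pos g
  -- the order divides `F`
  have h1 : orderOf g ∣ (F : ℕ) := by
    apply orderOf_dvd_of_pow_eq_one
    have h2 : (μ (zz c)) ^ (q ^ (F : ℕ)) = (μ (zz c)) ^ 1 := by
      rw [← hF, FiniteField.pow_card, pow_one]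
    have h3 := pow_modEq (NeZero.ne m) hw h2
    apply Units.ext
    rw [Units.val_pow_eq_pow_val, hg]
    have h4 := (ZMod.natCast_eq_natCast_iff _ _ _).2 h3
    push_cast at h4
    rw [h4]
    rfl
  -- all the elements are roots
  have h5 : ∀ x : E, x ^ (q ^ orderOf g) = x := by
    intro x
    obtain ⟨y, rfl⟩ := hs x
    rw [← mk_rs_pow c q g hg μ, pow_orderOf_eq_one, rs_one]
  have h6 : Fintype.card E ≤ q ^ orderOf g := by
    have hq1 : 1 < q ^ orderOf g := Nat.one_lt_pow hf0.ne' (Fact.out : q.Prime).one_lt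
    have h7 : (X ^ (q ^ orderOf g) - X : E[X]) ≠ 0 := FiniteField.X_pow_card_sub_X_ne_zero _ hq1
    have h8 := Polynomial.card_le_degree_of_subset_roots (R := E)
      (p := X ^ (q ^ orderOf g) - X) (Z := Finset.univ) (by
        intro x _
        rw [mem_roots h7]
        simp [h5 x])
    rwa [FiniteField.X_pow_card_sub_X_natDegree_eq _ hq1, Finset.card_univ] at h8
  rw [hF] at h6
  have h9 : (F : ℕ) ≤ orderOf g := (Nat.pow_le_pow_iff_right (Fact.out : q.Prime).one_lt).1 h6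
  rw [Nat.le_antisymm h9 (Nat.le_of_dvd F.pos h1)]

end

section trans

variable {m : ℕ} [NeZero m] {C : Type} [Field C] [NumberField C]

lemma sigma_inj (c : CycM m C) : Function.Injective c.σ := by
  intro s t h
  have h1 : c.z ^ (s : ZMod m).val = c.z ^ (t : ZMod m).val := by
    rw [← c.σ_z, ← c.σ_z, h]
  have h2 := pow_modEq (NeZero.ne m) c.prim h1
  have h3 := Nat.ModEq.eq_of_lt_of_lt h2 (ZMod.val_lt _) (ZMod.val_lt _)
  exact Units.ext (ZMod.val_injective m h3)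

lemma isGal (c : CycM m C) : IsGalois ℚ C := by
  have h1 : Nat.card (ZMod m)ˣ = m.totient := by
    rw [Nat.card_eq_fintype_card, ZMod.card_units_eq_totient]
  have h2 : Nat.card (ZMod m)ˣ = Nat.card (C ≃ₐ[ℚ] C) :=
    Nat.card_congr (Equiv.ofBijective c.σ ⟨sigma_inj c, c.all⟩)
  apply IsGalois.of_card_aut_eq_finrank
  rw [c.rank, ← h1, h2]

lemma trans1 (c : CycM m C) (P P' : HeightOneSpectrum (𝓞 C)) (q : ℕ) (hq : q.Prime)
    (hP : ((q : ℕ) : 𝓞 C) ∈ P.asIdeal) (hP' : ((q : ℕ) : 𝓞 C) ∈ P'.asIdeal) :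
    ∃ t : (ZMod m)ˣ, actM c t P = P' := by
  have hgal := isGal c
  have hinv : Algebra.IsInvariant ℤ (𝓞 C) (𝓞 C ≃ₐ[ℤ] 𝓞 C) :=
    Algebra.isInvariant_of_isGalois' ℤ ℚ C (𝓞 C)
  have hu : ∀ Q : HeightOneSpectrum (𝓞 C), ((q : ℕ) : 𝓞 C) ∈ Q.asIdeal →
      Q.asIdeal.under ℤ = Ideal.span {(q : ℤ)} := by
    intro Q hQ
    have hmax : (Ideal.span {(q : ℤ)}).IsMaximal :=
      PrincipalIdealRing.isMaximal_of_irreducible (Nat.prime_iff_prime_int.1 hq).irreducible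
    refine (hmax.eq_of_le (Ideal.IsPrime.under ℤ Q.asIdeal).ne_top ?_).symm
    rw [Ideal.span_singleton_le_iff_mem, Ideal.mem_comap]
    simpa using hQ
  have hfin : Finite (𝓞 C ≃ₐ[ℤ] 𝓞 C) :=
    Finite.of_equiv _ (galRestrict ℤ ℚ C (𝓞 C)).toEquiv
  obtain ⟨τ, hτ⟩ := Algebra.IsInvariant.exists_smul_of_under_eq ℤ (𝓞 C) (𝓞 C ≃ₐ[ℤ] 𝓞 C)
    P.asIdeal P'.asIdeal ((hu P hP).trans (hu P' hP').symm)
  obtain ⟨τ', rfl⟩ := (galRestrict ℤ ℚ C (𝓞 C)).surjective τ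
  obtain ⟨t, rfl⟩ := c.all τ'
  refine ⟨t⁻¹, ?_⟩
  apply HeightOneSpectrum.ext
  rw [hτ]
  ext x
  rw [mem_act, Ideal.mem_pointwise_smul_iff_inv_smul_mem, ← map_inv, ← map_inv]
  have h1 : rsM c t⁻¹ x = galRestrict ℤ ℚ C (𝓞 C) (c.σ t⁻¹) x := by
    apply RingOfIntegers.ext
    rw [rs_coe]
    exact (algebraMap_galRestrict_apply ℤ (c.σ t⁻¹) x).symm
  rw [h1]
  rfl

end trans

/-- **STABM** -/
theorem t_STABM : S_STABM := by
  intro m _ C _ _ c P q _ hq hqP g hg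
  have : Fact q.Prime := ⟨hq⟩
  have hmax := P.isMaximal
  let _ : Field (𝓞 C ⧸ P.asIdeal) := Ideal.Quotient.field P.asIdeal
  have hfin : Finite (𝓞 C ⧸ P.asIdeal) := Ideal.finiteQuotientOfFreeOfNeBot P.asIdeal P.ne_bot
  have hμ : ∀ x, Ideal.Quotient.mk P.asIdeal x = 0 ↔ x ∈ P.asIdeal :=
    fun x => Ideal.Quotient.eq_zero_iff_mem
  have hs : Function.Surjective (Ideal.Quotient.mk P.asIdeal) := Ideal.Quotient.mk_surjective
  have hc : CharP (𝓞 C ⧸ P.asIdeal) q := by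
    refine (CharP.charP_iff_prime_eq_zero hq).2 ?_
    have := (hμ _).2 hqP
    rwa [map_natCast] at this
  refine ⟨fun t => ⟨stab2 c P q g hg (Ideal.Quotient.mk P.asIdeal) hμ hs t,
    stab1 c P q g hg (Ideal.Quotient.mk P.asIdeal) hμ t⟩,
    card1 c q g hg (Ideal.Quotient.mk P.asIdeal) hs, fun P' hP' => trans1 c P P' q hq hqP hP'⟩

end Pool.Agent.K3h42.RQ
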